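import Pool.Agent.Helper20.EQ.St4

/-!
# Project EQ (MP_cb927e_an), module VL: the class theorem with a longer list of lengths
-/

set_option autoImplicit false

open MeasureTheory Set Filter Topology
open scoped ENNReal RealInnerProductSpace

namespace Pool.Agent.Helper90.EQ

open Pool.Agent.Helper68.LM (Pl BB Bd Av HL ft fm DQ)
open Pool.Agent.Helper20.RG
open Pool.Agent.Helper20.EQ
open Pool.Agent.Helper68.EP (elt GapP)

/-- the family extended by zero -/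
noncomputable def Zr (u : ℕ) (Zf : ℕ → ℤ → ℕ → Pl → ℝ) (W : ℕ) (k : ℤ) (j : ℕ) (x : Pl) : ℝ :=
  if j < 2 ^ u then Zf W k j x else 0

/-- the slopes extended by zero -/
noncomputable def sr (u : ℕ) (s : ℕ → ℝ) (j : ℕ) : ℝ := if j < 2 ^ u then s j else 0

lemma Zr_lt (u : ℕ) (Zf : ℕ → ℤ → ℕ → Pl → ℝ) (W : ℕ) (k : ℤ) (j : ℕ) (h : j < 2 ^ u) :
    Zr u Zf W k j = Zf W k j := by
  funext x
  exact if_pos h

lemma Zr_ge (u : ℕ) (Zf : ℕ → ℤ → ℕ → Pl → ℝ) (W : ℕ) (k : ℤ) (j : ℕ) (h : ¬ j < 2 ^ u) :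
    Zr u Zf W k j = fun _ => 0 := by
  funext x
  exact if_neg h

lemma sum_r {M : Type*} [AddCommMonoid M] {u v : ℕ} (h : u ≤ v) (F G : ℕ → M)
    (h1 : ∀ j < 2 ^ u, F j = G j) (h2 : ∀ j, ¬ j < 2 ^ u → F j = 0) :
    ∑ j ∈ Finset.range (2 ^ v), F j = ∑ j ∈ Finset.range (2 ^ u), G j := by
  have hs : Finset.range (2 ^ u) ⊆ Finset.range (2 ^ v) :=
    Finset.range_mono (Nat.pow_le_pow_right (by norm_num) h)
  rw [← Finset.sum_subset hs (fun j _ hj => h2 j (by simpa using hj))]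
  exact Finset.sum_congr rfl fun j hj => h1 j (by simpa using hj)

/-- the new constant -/
noncomputable def Ar (u v : ℕ) (A : ℝ) : ℝ := A * 2 ^ u / 2 ^ v

lemma Ar_eq (u v : ℕ) (A T : ℝ) : (2 : ℝ) ^ v * (Ar u v A * T) = (2 : ℝ) ^ u * (A * T) := by
  unfold Ar
  have h : (2 : ℝ) ^ v ≠ 0 := by positivity
  field_simp

lemma Ar_nonneg (u v : ℕ) (A : ℝ) (h : 0 ≤ A) : 0 ≤ Ar u v A := by
  unfold Ar
  positivity

lemma mu_r (u v : ℕ) (A σ W T : ℝ) : mu v (Ar u v A) σ W T = mu u A σ W T := by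
  unfold mu
  rw [Ar_eq]

lemma fam_r {u v : ℕ} {Cf : ℝ} {K : ℕ} {A σ : ℝ} {s : ℕ → ℝ} {g : Pl → ℝ}
    {Zf : ℕ → ℤ → ℕ → Pl → ℝ} (hF : Fam u Cf K A σ s g Zf) (hu : 1 ≤ u) (huv : u ≤ v)
    (hC : 1 ≤ Cf) : Fam v Cf K (Ar u v A) σ (sr u s) g (Zr u Zf) := by
  have hCK : ENNReal.ofReal (Cf * (K + u + 1)) ≤ ENNReal.ofReal (Cf * (K + v + 1)) := by
    apply ENNReal.ofReal_le_ofReal
    have h1 : (u : ℝ) ≤ v := by exact_mod_cast huv
    have h2 : (K + u + 1 : ℝ) ≤ K + v + 1 := by linarith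
    exact mul_le_mul_of_nonneg_left h2 (by linarith)
  constructor
  · intro W k j x _
    by_cases h : j < 2 ^ u
    · rw [Zr_lt u Zf W k j h]
      exact hF.one W k j x h
    · rw [Zr_ge u Zf W k j h]
      simp
  · intro W k j _
    by_cases h : j < 2 ^ u
    · rw [Zr_lt u Zf W k j h]
      exact hF.cont W k j h
    · rw [Zr_ge u Zf W k j h]
      exact continuous_const
  · intro W k j x lam _
    by_cases h : j < 2 ^ u
    · rw [Zr_lt u Zf W k j h, sr, if_pos h]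
      exact hF.inv W k j x lam h
    · rw [Zr_ge u Zf W k j h, sub_self, abs_zero]
      positivity
  · intro W k x
    rw [sum_r huv _ (fun j => ∫⁻ y in Sq x (4 * (2 : ℝ) ^ (k + (W : ℤ))), ‖Zf W k j y‖ₑ ^ 2)
      (fun j h => by rw [Zr_lt u Zf W k j h]) (fun j h => by rw [Zr_ge u Zf W k j h]; simp)]
    exact hF.lb W k x
  · intro W
    have e : ∀ k : ℤ, ∑ j ∈ Finset.range (2 ^ v), ∫⁻ x, ‖Zr u Zf W k j x‖ₑ ^ 2 =
        ∑ j ∈ Finset.range (2 ^ u), ∫⁻ x, ‖Zf W k j x‖ₑ ^ 2 := fun k =>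
      sum_r huv _ _ (fun j h => by rw [Zr_lt u Zf W k j h])
        (fun j h => by rw [Zr_ge u Zf W k j h]; simp)
    simp only [e]
    exact (hF.all W).trans (mul_le_mul' hCK le_rfl)
  · intro W w w' T _ h2 h3 h4 h5 h6
    have e : ∀ k : ℤ, ∑ j ∈ Finset.range (2 ^ v), ∫⁻ x, ‖Zr u Zf w k j x - Zr u Zf w' k j x‖ₑ ^ 2 =
        ∑ j ∈ Finset.range (2 ^ u), ∫⁻ x, ‖Zf w k j x - Zf w' k j x‖ₑ ^ 2 := fun k =>
      sum_r huv _ _ (fun j h => by rw [Zr_lt u Zf w k j h, Zr_lt u Zf w' k j h])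
        (fun j h => by rw [Zr_ge u Zf w k j h, Zr_ge u Zf w' k j h]; simp)
    simp only [e]
    rw [Ar_eq]
    exact hF.dif W w w' T hu (huv.trans h2) h3 h4 h5 h6
  · intro W
    have e : ∀ (k : ℤ) (x : Pl), ∑ j ∈ Finset.range (2 ^ v), Zr u Zf W k j x =
        ∑ j ∈ Finset.range (2 ^ u), Zf W k j x := fun k x =>
      sum_r huv _ _ (fun j h => by rw [Zr_lt u Zf W k j h])
        (fun j h => by rw [Zr_ge u Zf W k j h])
    simp only [e]
    exact (hF.tot W).trans (mul_le_mul' hCK le_rfl)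

lemma Ms_pos (v : ℕ) (hv : 1 ≤ v) : 0 < Ms v := by
  unfold Ms
  have : (0 : ℝ) < v := by exact_mod_cast hv
  positivity

lemma Pe_r (Zf : ℕ → ℤ → ℕ → Pl → ℝ) {u v : ℕ} (huv : u ≤ v) (hv : 1 ≤ v) {η : ℝ} (hη : 0 < η)
    (b : ℕ) (k : ℤ) (x : Pl) : Pe (Zr u Zf) v η b k x = Pv Zf u v η b k x := by
  have hM := Ms_pos v hv
  ext j
  unfold Pe Pv
  simp only [Set.mem_ofPred_eq]
  by_cases h : j < 2 ^ u
  · have h2 : j < 2 ^ v := lt_of_lt_of_le h (Nat.pow_le_pow_right (by norm_num) huv)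
    simp only [Zr_lt u Zf _ k j h, h, h2, true_and]
  · simp only [Zr_ge u Zf _ k j h, h, false_and, iff_false, sub_self, abs_zero]
    rintro ⟨_, h3, h4⟩
    rcases Nat.eq_zero_or_pos b with rfl | hb
    · obtain ⟨l, _, hl⟩ := h4 (Nat.zero_le _)
      have : 0 < η / (2 * Ms v) := by positivity
      linarith
    · have := h3 0 hb 0 (Nat.zero_le _)
      linarith

lemma Ew_lt (Zf : ℕ → ℤ → ℕ → Pl → ℝ) (u v : ℕ) (η : ℝ) (b i : ℕ) (κ : ℝ) (k : ℤ) (j : ℕ)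
    (h : j < 2 ^ u) : Ew (Zr u Zf) v η b i κ k j = Ew Zf v η b i κ k j := by
  unfold Ew
  simp only [Zr_lt u Zf _ k j h]

lemma Ew_ge (Zf : ℕ → ℤ → ℕ → Pl → ℝ) (u v : ℕ) (η : ℝ) (b i : ℕ) (κ : ℝ) (k : ℤ) (j : ℕ)
    (h : ¬ j < 2 ^ u) (hκ : 0 ≤ κ * η) : Ew (Zr u Zf) v η b i κ k j = ∅ := by
  unfold Ew
  simp only [Zr_ge u Zf _ k j h]
  rw [Set.eq_empty_iff_forall_notMem]
  rintro x ⟨h1, _⟩
  rw [abs_zero] at h1
  linarith

theorem hVL (hPS : StPS) (hINV : StINV) (hLBW : StLBW) (hMK : StMK) (hER : StER) : StVL := by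
  refine ⟨?_, ?_⟩
  · intro Zf u v η k x hv huv hη
    have h := hPS (Zr u Zf) v η k x hv hη
    have e : {j : ℕ | j < 2 ^ v ∧ η ≤ |Zr u Zf (om v 0 0) k j x|} =
        {j : ℕ | j < 2 ^ u ∧ η ≤ |Zf (om v 0 0) k j x|} := by
      ext j
      simp only [Set.mem_ofPred_eq]
      by_cases hj : j < 2 ^ u
      · have h2 : j < 2 ^ v := lt_of_lt_of_le hj (Nat.pow_le_pow_right (by norm_num) huv)
        simp only [Zr_lt u Zf _ k j hj, hj, h2, true_and]
      · simp only [Zr_ge u Zf _ k j hj, hj, false_and, iff_false, abs_zero]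
        rintro ⟨_, h3⟩
        linarith
    rw [e] at h
    simpa only [Pe_r Zf huv hv hη] using h
  · intro u v Cf K A σ s g Zf η hF hu huv hC hA hη
    have hF' := fam_r hF hu huv hC
    have hv : 1 ≤ v := hu.trans huv
    have hA' := Ar_nonneg u v A hA
    have hsum : ∀ (b i : ℕ) (k : ℤ), ∑ j ∈ Finset.range (2 ^ v),
        volume (Ew (Zr u Zf) v η b i (1 / 4) k j) =
        ∑ j ∈ Finset.range (2 ^ u), volume (Ew Zf v η b i (1 / 4) k j) := fun b i k =>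
      sum_r huv _ _ (fun j h => by rw [Ew_lt Zf u v η b i _ k j h])
        (fun j h => by rw [Ew_ge Zf u v η b i _ k j h (by positivity), measure_empty])
    refine ⟨?_, ?_, ?_, ?_⟩
    · intro b i k j hv2 hη3 hb hi hj x hx lam hlam
      have hj2 : j < 2 ^ v := lt_of_lt_of_le hj (Nat.pow_le_pow_right (by norm_num) huv)
      have h := hINV v Cf K (Ar u v A) σ (sr u s) g (Zr u Zf) η b i k j hF' hv2 hη3 hb hi hj2 x
        (by rw [Ew_lt Zf u v η b i _ k j hj]; exact hx) lam hlam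
      rw [Ew_lt Zf u v η b i _ k j hj, sr, if_pos hj] at h
      exact h
    · intro Λ b i k x hΛ hg hg1 hLoc
      have h := hLBW v Cf K (Ar u v A) σ (sr u s) g (Zr u Zf) η Λ b i k x hF' hC hη hΛ hg hg1 hLoc
      rw [sum_r huv _ (fun j => volume (Ew Zf v η b i (1 / 4) k j ∩
        Sq x (4 * (2 : ℝ) ^ (k + (om v (b - 1) (16 * v - i) : ℤ)))))
        (fun j h => by rw [Ew_lt Zf u v η b i _ k j h])
        (fun j h => by rw [Ew_ge Zf u v η b i _ k j h (by positivity), Set.empty_inter,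
          measure_empty])] at h
      exact h
    · intro m₁ b T hm hb hT
      have h := hMK v Cf K (Ar u v A) σ (sr u s) g (Zr u Zf) η m₁ b T hF' hC hA' hv hη hm hb hT
      rw [mu_r] at h
      simpa only [Pe_r Zf huv hv hη] using h
    · intro b i
      obtain ⟨h1, h2⟩ := hER v Cf K (Ar u v A) σ (sr u s) g (Zr u Zf) η b i hF' hC hA' hv hη
      refine ⟨?_, ?_⟩
      · simpa only [hsum] using h1
      · intro hb T hT
        have h3 := h2 hb T hT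
        rw [mu_r] at h3
        simpa only [hsum] using h3

end Pool.Agent.Helper90.EQ
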